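import Pool.Agent.KDT.StmtsK

/-!
# Row CTS of squad KDT: counting of the exponents
-/

set_option autoImplicit false

namespace Pool.Agent.KDT.H90

open Finset

theorem sum_Ex (κ : ℕ) (F : (Fin 4 → ℕ) → ℤ) :
    ∑ e ∈ Ex κ, F e = ∑ J ∈ range (κ + 1), ∑ b ∈ range (J + 1), ∑ d ∈ range (κ - J + 1),
      if b ≤ 1 ∨ d ≤ 1 then F ![J - b, b, κ - J - d, d] else 0 := by
  rw [Finset.sum_sigma', Finset.sum_sigma', ← Finset.sum_filter]
  refine Finset.sum_bij' (fun e _ => (⟨⟨e 0 + e 1, e 1⟩, e 3⟩ : (_ : (_ : ℕ) × ℕ) × ℕ))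
    (fun y _ => ![y.1.1 - y.1.2, y.1.2, κ - y.1.1 - y.2, y.2]) ?_ ?_ ?_ ?_ ?_
  · intro e he
    simp only [Ex, Finset.mem_filter, Fintype.mem_piFinset, Finset.mem_range] at he
    simp only [Finset.mem_filter, Finset.mem_sigma, Finset.mem_range]
    omega
  · rintro ⟨⟨J, b⟩, d⟩ hy
    simp only [Finset.mem_filter, Finset.mem_sigma, Finset.mem_range] at hy
    simp only [Ex, Finset.mem_filter, Fintype.mem_piFinset, Finset.mem_range]
    refine ⟨?_, ?_, ?_⟩
    · intro i
      fin_cases i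
      · show J - b < κ + 1
        omega
      · show b < κ + 1
        omega
      · show κ - J - d < κ + 1
        omega
      · show d < κ + 1
        omega
    · show J - b + b + (κ - J - d) + d = κ
      omega
    · exact hy.2
  · intro e he
    simp only [Ex, Finset.mem_filter, Fintype.mem_piFinset, Finset.mem_range] at he
    funext i
    fin_cases i
    · show e 0 + e 1 - e 1 = e 0
      omega
    · rfl
    · show κ - (e 0 + e 1) - e 3 = e 2
      omega
    · rfl
  · rintro ⟨⟨J, b⟩, d⟩ hy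
    simp only [Finset.mem_filter, Finset.mem_sigma, Finset.mem_range] at hy
    show (⟨⟨J - b + b, b⟩, d⟩ : (_ : (_ : ℕ) × ℕ) × ℕ) = ⟨⟨J, b⟩, d⟩
    rw [Nat.sub_add_cancel (by omega)]
  · intro e he
    simp only [Ex, Finset.mem_filter, Fintype.mem_piFinset, Finset.mem_range] at he
    congr 1
    funext i
    fin_cases i
    · show e 0 = e 0 + e 1 - e 1
      omega
    · rfl
    · show e 2 = κ - (e 0 + e 1) - e 3
      omega
    · rfl

theorem rect (A C : ℕ) (g : ℕ → ℕ → ℤ) :
    ∑ b ∈ range (A + 2), ∑ d ∈ range (C + 2), (if b ≤ 1 ∨ d ≤ 1 then g b d else 0) =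
      ∑ b ∈ range A, (g (b + 2) 1 + g (b + 2) 0) + ∑ d ∈ range (C + 2), g 1 d +
        ∑ d ∈ range (C + 2), g 0 d := by
  rw [Finset.sum_range_succ', Finset.sum_range_succ']
  have h0 : ∑ b ∈ range A, ∑ d ∈ range (C + 2),
      (if b + 1 + 1 ≤ 1 ∨ d ≤ 1 then g (b + 1 + 1) d else 0) =
      ∑ b ∈ range A, (g (b + 2) 1 + g (b + 2) 0) := by
    apply Finset.sum_congr rfl
    intro b _
    rw [Finset.sum_range_succ', Finset.sum_range_succ']
    have : ∑ k ∈ range C, (if b + 1 + 1 ≤ 1 ∨ k + 1 + 1 ≤ 1 then g (b + 1 + 1) (k + 1 + 1) else 0)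
        = 0 := by
      apply Finset.sum_eq_zero
      intro k _
      rw [if_neg (by omega)]
    rw [this]
    simp
  have h1 : ∑ d ∈ range (C + 2), (if 0 + 1 ≤ 1 ∨ d ≤ 1 then g (0 + 1) d else 0) =
      ∑ d ∈ range (C + 2), g 1 d := by
    apply Finset.sum_congr rfl
    intro d _
    rw [if_pos (by omega)]
  have h2 : ∑ d ∈ range (C + 2), (if 0 ≤ 1 ∨ d ≤ 1 then g 0 d else 0) =
      ∑ d ∈ range (C + 2), g 0 d := by
    apply Finset.sum_congr rfl
    intro d _
    rw [if_pos (by omega)]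
  rw [h0, h1, h2]

/-- the sum over the triangle, split -/
theorem split (k : ℕ) (g : ℕ → ℕ → ℕ → ℤ) (W : ℤ → ℤ → ℤ) (h : ∀ j c : ℕ, k = j + 1 + c →
    ∑ b ∈ range j, (g (j + 1) (b + 2) 1 + g (j + 1) (b + 2) 0) +
      ∑ d ∈ range (c + 2), g (j + 1) 1 d + ∑ d ∈ range (c + 2), g (j + 1) 0 d = W j k) :
    ∑ J ∈ range (k + 1 + 1), ∑ b ∈ range (J + 1), ∑ d ∈ range (k + 1 - J + 1),
      (if b ≤ 1 ∨ d ≤ 1 then g J b d else 0) =
      ∑ j ∈ range k, W j k + ∑ d ∈ range (k + 2), g 0 0 d + ∑ b ∈ range (k + 2), g (k + 1) b 0 := by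
  rw [Finset.sum_range_succ, Finset.sum_range_succ']
  congr 1
  · congr 1
    · apply Finset.sum_congr rfl
      intro j hj
      obtain ⟨c, hc⟩ : ∃ c, k = j + 1 + c := ⟨k - (j + 1), by
        have := Finset.mem_range.mp hj
        omega⟩
      rw [← h j c hc, ← rect]
      have e : k + 1 - (j + 1) + 1 = c + 2 := by omega
      rw [e]
    · rw [Finset.sum_range_one]
      apply Finset.sum_congr rfl
      intro d _
      rw [if_pos (by omega)]
  · apply Finset.sum_congr rfl
    intro b _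
    rw [Nat.sub_self, Finset.sum_range_one, if_pos (by omega)]

theorem sum_id (n : ℕ) : 2 * ∑ d ∈ range n, (d : ℤ) = n * (n - 1) := by
  induction n with
  | zero => simp
  | succ n ih =>
    rw [Finset.sum_range_succ, mul_add, ih]
    push_cast
    ring

theorem cts : CtsStatement := by
  intro κ hκ
  obtain ⟨k, rfl⟩ : ∃ k, κ = k + 1 := ⟨κ - 1, by omega⟩
  refine ⟨?_, ?_, ?_⟩
  · have h1 : ((Ex (k + 1)).card : ℤ) = 2 * ((k : ℤ) + 1) ^ 2 + 2 := by
      have e1 : ((Ex (k + 1)).card : ℤ) = ∑ _e ∈ Ex (k + 1), (1 : ℤ) := by simp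
      rw [e1, sum_Ex, split k (fun _ _ _ => 1) (fun _ y => 2 * (y + 1))]
      · simp
        ring
      · intro j c hc
        subst hc
        simp
        ring
    exact_mod_cast h1
  · have h1 : 3 * ∑ e ∈ Ex (k + 1), ((jj e ^ 2 : ℕ) : ℤ) =
        ((k : ℤ) + 1) ^ 2 * (2 * ((k : ℤ) + 1) ^ 2 + 4) := by
      rw [sum_Ex]
      have e2 : ∑ J ∈ range (k + 1 + 1), ∑ b ∈ range (J + 1), ∑ d ∈ range (k + 1 - J + 1),
          (if b ≤ 1 ∨ d ≤ 1 then ((jj ![J - b, b, k + 1 - J - d, d] ^ 2 : ℕ) : ℤ) else 0) =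
          ∑ J ∈ range (k + 1 + 1), ∑ b ∈ range (J + 1), ∑ d ∈ range (k + 1 - J + 1),
          (if b ≤ 1 ∨ d ≤ 1 then ((J : ℤ) ^ 2) else 0) := by
        apply Finset.sum_congr rfl
        intro J _
        apply Finset.sum_congr rfl
        intro b hb
        apply Finset.sum_congr rfl
        intro d _
        have hb' := Finset.mem_range.mp hb
        have e3 : jj ![J - b, b, k + 1 - J - d, d] = J := by
          show J - b + b = J
          omega
        rw [e3]
        push_cast
        rfl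
      rw [e2, split k (fun J _ _ => (J : ℤ) ^ 2) (fun x y => 2 * (y + 1) * (x + 1) ^ 2)]
      · have e4 : ∀ n : ℕ, 3 * ∑ j ∈ range n, 2 * ((k : ℤ) + 1) * ((j : ℤ) + 1) ^ 2 =
            ((k : ℤ) + 1) * (n * (n + 1) * (2 * n + 1)) := by
          intro n
          induction n with
          | zero => simp
          | succ n ih =>
            rw [Finset.sum_range_succ, mul_add, ih]
            push_cast
            ring
        rw [mul_add, mul_add, e4]
        simp
        ring
      · intro j c hc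
        subst hc
        simp
        ring
    exact_mod_cast h1
  · have h1 : 3 * ∑ e ∈ Ex (k + 1), ((wt e : ℕ) : ℤ) + 2 * ((k : ℤ) + 1) =
        8 * ((k : ℤ) + 1) ^ 3 + 6 * ((k : ℤ) + 1) ^ 2 + 6 := by
      rw [sum_Ex]
      have e2 : ∑ J ∈ range (k + 1 + 1), ∑ b ∈ range (J + 1), ∑ d ∈ range (k + 1 - J + 1),
          (if b ≤ 1 ∨ d ≤ 1 then ((wt ![J - b, b, k + 1 - J - d, d] : ℕ) : ℤ) else 0) =
          ∑ J ∈ range (k + 1 + 1), ∑ b ∈ range (J + 1), ∑ d ∈ range (k + 1 - J + 1),
          (if b ≤ 1 ∨ d ≤ 1 then ((b : ℤ) + d + 2 * ((k : ℤ) + 1 - J)) else 0) := by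
        apply Finset.sum_congr rfl
        intro J hJ
        apply Finset.sum_congr rfl
        intro b hb
        apply Finset.sum_congr rfl
        intro d hd
        have hb' := Finset.mem_range.mp hb
        have hd' := Finset.mem_range.mp hd
        have hJ' := Finset.mem_range.mp hJ
        have e3 : wt ![J - b, b, k + 1 - J - d, d] + 2 * J = b + d + 2 * (k + 1) := by
          show b + 2 * (k + 1 - J - d) + 3 * d + 2 * J = b + d + 2 * (k + 1)
          omega
        have e5 : ((wt ![J - b, b, k + 1 - J - d, d] : ℕ) : ℤ) + 2 * J = b + d + 2 * (k + 1) := by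
          exact_mod_cast e3
        have e6 : ((wt ![J - b, b, k + 1 - J - d, d] : ℕ) : ℤ) =
            (b : ℤ) + d + 2 * ((k : ℤ) + 1 - J) := by linarith
        rw [e6]
      rw [e2, split k (fun J b d => (b : ℤ) + d + 2 * ((k : ℤ) + 1 - J))
        (fun x y => x * (x - 1) + 5 * x + 4 * x * (y - x) + (y - x + 1) * (y - x) + (y - x + 1) +
          4 * (y - x) * (y - x + 1))]
      · have e4 : ∀ n : ℕ, 3 * ∑ j ∈ range n, ((j : ℤ) * (j - 1) + 5 * j + 4 * j * (k - j) +
            (k - j + 1) * (k - j) + (k - j + 1) + 4 * (k - j) * (k - j + 1)) =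
            (n : ℤ) * (n - 1) * (2 * n - 1) - 3 * n * (n - 1) - 9 * k * n * (n - 1) +
              3 * n * (5 * k ^ 2 + 6 * k + 1) := by
          intro n
          induction n with
          | zero => simp
          | succ n ih =>
            rw [Finset.sum_range_succ, mul_add, ih]
            push_cast
            ring
        have s1 := sum_id (k + 2)
        have e5 := e4 k
        simp only [Finset.sum_add_distrib, Finset.sum_const, Finset.card_range, nsmul_eq_mul]
          at e5 ⊢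
        push_cast at s1 e5 ⊢
        linear_combination e5 + 3 * s1
      · intro j c hc
        subst hc
        have s1 := sum_id j
        have s2 := sum_id (c + 2)
        push_cast at s1 s2 ⊢
        simp only [Finset.sum_add_distrib, Finset.sum_const, Finset.card_range, nsmul_eq_mul]
        push_cast
        linear_combination s1 + s2
    exact_mod_cast h1

end Pool.Agent.KDT.H90
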